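import Mathlib

namespace Pool.Agent.Results.MP_2c5934_co.Counter

variable {G : Type} [AddCommGroup G]

/-- The `h`-fold sumset. -/
def sumset (h : ℕ) (A : Finset G) : Set G :=
  {x | ∃ f : Fin h → G, (∀ i, f i ∈ A) ∧ x = ∑ i, f i}

/-- The `h`-fold signed sumset. -/
def signedSumset (h : ℕ) (A : Finset G) : Set G :=
  {x | ∃ l : G → ℤ, ∑ a ∈ A, |l a| = h ∧ x = ∑ a ∈ A, l a • a}

noncomputable def rho (G : Type) [AddCommGroup G] (m h : ℕ) : ℕ :=
  sInf {n | ∃ A : Finset G, A.card = m ∧ (sumset h A).ncard = n}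

noncomputable def rhoPm (G : Type) [AddCommGroup G] (m h : ℕ) : ℕ :=
  sInf {n | ∃ A : Finset G, A.card = m ∧ (signedSumset h A).ncard = n}

abbrev K := Fin 2 → ZMod 5

def u : K := ![1, 0]

lemma four : ∀ a b : K, a ≠ b →
    ({a + a + a, a + a + b, a + b + b, b + b + b} : Finset K).card = 4 := by decide +kernel

lemma low : 4 ≤ rho K 2 3 := by
  unfold rho
  refine le_csInf ⟨_, {u, -u}, by decide, rfl⟩ ?_
  rintro n ⟨A, hA, rfl⟩
  obtain ⟨a, b, hab, rfl⟩ := Finset.card_eq_two.1 hA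
  rw [← four a b hab, ← Set.ncard_coe_finset]
  apply Set.ncard_le_ncard _ (Set.toFinite _)
  intro x hx
  simp only [Finset.coe_insert, Finset.coe_singleton, Set.mem_insert_iff, Set.mem_singleton_iff] at hx
  rcases hx with rfl | rfl | rfl | rfl
  · exact ⟨![a, a, a], by intro i; fin_cases i <;> simp, by simp [Fin.sum_univ_three]⟩
  · exact ⟨![a, a, b], by intro i; fin_cases i <;> simp, by simp [Fin.sum_univ_three]⟩
  · exact ⟨![a, b, b], by intro i; fin_cases i <;> simp, by simp [Fin.sum_univ_three]⟩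
  · exact ⟨![b, b, b], by intro i; fin_cases i <;> simp, by simp [Fin.sum_univ_three]⟩

lemma up : rhoPm K 2 3 ≤ 4 := by
  unfold rhoPm
  refine le_trans (Nat.sInf_le ⟨{u, -u}, by decide, rfl⟩) ?_
  have h4 : ({u, -u, u + u + u, -(u + u + u)} : Finset K).card = 4 := by decide
  rw [← h4, ← Set.ncard_coe_finset]
  apply Set.ncard_le_ncard _ (Set.toFinite _)
  rintro x ⟨l, hl, rfl⟩
  rw [Finset.sum_pair (by decide)] at hl ⊢
  generalize l u = s at hl ⊢
  generalize l (-u) = t at hl ⊢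
  have hs := abs_nonneg s
  have ht := abs_nonneg t
  have h1 : |s| ≤ 3 := by omega
  have h2 : |t| ≤ 3 := by omega
  rw [abs_le] at h1 h2
  obtain ⟨h1, h1'⟩ := h1
  obtain ⟨h2, h2'⟩ := h2
  rw [Finset.mem_coe]
  interval_cases s <;> interval_cases t <;> first | decide | (exfalso; revert hl; decide)

theorem result : ¬ ∀ (p r h m δ k c : ℕ), p.Prime → Odd p → 2 ≤ r → 2 ≤ h → h ≤ p - 1 → 2 ≤ m →
    m ≤ p ^ r → δ = (if h ∣ p - 1 then 0 else 1) →
    IsGreatest {k' | p ^ k' + δ ≤ h * m - h + 1} k →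
    IsGreatest {c' | (h * c' + 1) * p ^ k + δ ≤ h * m - h + 1} c →
    (c + 1) * p ^ k < m → rho (Fin r → ZMod p) m h < rhoPm (Fin r → ZMod p) m h := by
  intro H
  have := H 5 2 3 2 1 0 0 (by norm_num) (by decide) le_rfl (by norm_num) (by norm_num) le_rfl
    (by norm_num) (by norm_num) ⟨by simp, fun k hk => by
      rcases k with _ | k
      · exact le_rfl
      · simp only [Set.mem_setOf_eq, pow_succ] at hk
        have : 0 < 5 ^ k := by positivity
        omega⟩ ⟨by simp, fun c hc => by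
      simp only [Set.mem_setOf_eq] at hc
      omega⟩ (by norm_num)
  have h1 := low
  have h2 := up
  unfold K at h1 h2
  omega

end Pool.Agent.Results.MP_2c5934_co.Counter
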